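import Pool.Agent.Helper32.CL.St2

/-! Project CL, module CR (helper2): chain rule for the jets. -/

set_option autoImplicit false

namespace Pool.Agent.Helper2.CL

open Helper32.CL Helper35.PI Helper35.PI2
open scoped ContDiff Manifold Topology ENNReal BigOperators
open MeasureTheory Set Filter

theorem hCR : StCR := by
  intro n V _ _ p φ z hp hφ
  have hp1 : ∀ᶠ y in 𝓝 z, DifferentiableAt ℝ p y := by
    have h1 : ∀ᶠ y in 𝓝 z, ContDiffAt ℝ 2 p y := hp.eventually (by simp)
    filter_upwards [h1] with y hy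
    exact hy.differentiableAt (by norm_num)
  have hφd : Differentiable ℝ φ := hφ.differentiable (by norm_num)
  have hcomp : ∀ y, DifferentiableAt ℝ p y →
      fderiv ℝ (fun z => φ (p z)) y = (fderiv ℝ φ (p y)).comp (fderiv ℝ p y) := by
    intro y hy
    exact fderiv_comp y (hφd (p y)) hy
  have hz : DifferentiableAt ℝ p z := hp1.self_of_nhds
  have hjg : ∀ y, DifferentiableAt ℝ p y → ∀ k,
      jg (fun z => φ (p z)) y k = fderiv ℝ φ (p y) (jg p y k) := by
    intro y hy k
    unfold jg
    rw [hcomp y hy]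
    rfl
  have hjt : jt (fun z => φ (p z)) z = fderiv ℝ φ (p z) (jt p z) := by
    unfold jt
    rw [hcomp z hz]
    rfl
  refine ⟨hjg z hz, hjt, ?_⟩
  -- second derivatives
  have hφ' : Differentiable ℝ (fderiv ℝ φ) :=
    (hφ.fderiv_right (m := 1) (by norm_num)).differentiable (by norm_num)
  have hjgd : ∀ k, DifferentiableAt ℝ (fun y => jg p y k) z := by
    intro k
    unfold jg
    exact ((hp.fderiv_right (m := 1) (by norm_num)).clm_apply
      contDiffAt_const).differentiableAt (by norm_num)
  have hkk : ∀ k, jgg (fun z => φ (p z)) z k k = fderiv ℝ φ (p z) (jgg p z k k)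
      + fderiv ℝ (fun y => fderiv ℝ φ y (jg p z k)) (p z) (jg p z k) := by
    intro k
    have hev : (fun y => jg (fun z => φ (p z)) y k) =ᶠ[𝓝 z]
        fun y => fderiv ℝ φ (p y) (jg p y k) := by
      filter_upwards [hp1] with y hy
      exact hjg y hy k
    have h1 : HasFDerivAt (fun y => fderiv ℝ φ (p y))
        ((fderiv ℝ (fderiv ℝ φ) (p z)).comp (fderiv ℝ p z)) z :=
      (hφ' (p z)).hasFDerivAt.comp z hz.hasFDerivAt
    have h2 := h1.clm_apply (hjgd k).hasFDerivAt
    have h3 : fderiv ℝ (fun y => jg (fun z => φ (p z)) y k) z = _ :=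
      hev.fderiv_eq.trans h2.fderiv
    have h4 : HasFDerivAt (fun y => fderiv ℝ φ y (jg p z k))
        ((fderiv ℝ (fderiv ℝ φ) (p z)).flip (jg p z k)) (p z) := by
      have := (hφ' (p z)).hasFDerivAt.clm_apply (hasFDerivAt_const (jg p z k) (p z))
      simpa using this
    rw [h4.fderiv]
    have h5 : jgg (fun z => φ (p z)) z k k
        = fderiv ℝ (fun y => jg (fun z => φ (p z)) y k) z (ee k, 0) := rfl
    rw [h5, h3]
    have h6 : jgg p z k k = fderiv ℝ (fun y => jg p y k) z (ee k, 0) := rfl
    rw [h6]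
    simp [jg]
  have e1 : jh (fun z => φ (p z)) z
      = jt (fun z => φ (p z)) z - ∑ k, jgg (fun z => φ (p z)) z k k := rfl
  have e2 : jh p z = jt p z - ∑ k, jgg p z k k := rfl
  rw [e1, e2, hjt, map_sub, map_sum, Finset.sum_congr rfl fun k _ => hkk k,
    Finset.sum_add_distrib]
  ring

end Pool.Agent.Helper2.CL
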