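import Pool.Agent.Helper32.CL.St2

/-! Project CL, module UJ (helper2): first derivatives of `U` on the graph. -/

set_option autoImplicit false

namespace Pool.Agent.Helper2.CL

open Helper32.CL Helper35.PI Helper35.PI2
open scoped ContDiff Manifold Topology ENNReal BigOperators
open MeasureTheory Set Filter

private theorem line_UJ {n : ℕ} {V : Type*} [NormedAddCommGroup V] [NormedSpace ℝ V]
    (φ : EE n × ℝ → V) (z₀ : EE n × ℝ) (m : Fin n) (hφ : DifferentiableAt ℝ φ z₀) :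
    HasDerivAt (fun s : ℝ => φ (z₀ + s • ((ee m, 0) : EE n × ℝ))) (jg φ z₀ m) 0 :=
  hφ.hasFDerivAt.hasLineDerivAt _

theorem hUJ (hGH : StGH) (hG0 : StG0) (hG1 : StG1) : StUJ := by
  intro n N x₀ L u t₀ hsol A T hA hT
  obtain ⟨hHs, hHv, hHg, _, hAf⟩ := hGH n N x₀ L u t₀ hsol A T hA hT
  obtain ⟨_, hT3, hAL, hTL⟩ := hG1 n N x₀ L u t₀ hsol
  rw [← hA] at hAL
  rw [← hT] at hT3 hTL
  have hG := hG0 n N x₀ L u t₀ hsol
  have hHL : ∀ v : EE n, (inner ℝ (Hv A) (L v) : ℝ) = 0 := by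
    intro v
    unfold Hv
    rw [sum_inner]
    exact Finset.sum_eq_zero fun i _ => hAL i i v
  have hHL' : ∀ v : EE n, (inner ℝ (L v) (Hv A) : ℝ) = 0 := fun v => by
    rw [real_inner_comm]; exact hHL v
  set zfn : Fin n → Fin n → EE n × ℝ → ℝ := fun i j z =>
    inner ℝ (Af x₀ L u i j z) (Hf x₀ L u z) with hzfn
  have hUg : ∀ z, Uf x₀ L u z = ∑ i, ∑ j, ∑ k, ∑ l,
      (GIf x₀ L u i k z * GIf x₀ L u j l z * zfn k l z) • Af x₀ L u i j z := fun z => rfl
  have hz0 : ∀ i j, zfn i j (0, t₀) = zz A i j := by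
    intro i j
    simp only [hzfn]
    rw [hHv, (hAf i j).2.1]
    rfl
  have hzs : ∀ i j, ContDiffAt ℝ ∞ (zfn i j) (0, t₀) := fun i j =>
    (hAf i j).1.inner ℝ hHs
  have hUs : ContDiffAt ℝ ∞ (Uf x₀ L u) (0, t₀) := by
    have : Uf x₀ L u = fun z => ∑ i, ∑ j, ∑ k, ∑ l,
      (GIf x₀ L u i k z * GIf x₀ L u j l z * zfn k l z) • Af x₀ L u i j z := funext hUg
    rw [this]
    exact ContDiffAt.sum fun i _ => ContDiffAt.sum fun j _ => ContDiffAt.sum fun k _ =>
      ContDiffAt.sum fun l _ => (((hG i k).1.mul (hG j l).1).mul (hzs k l)).smul (hAf i j).1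
  have hUv : Uf x₀ L u (0, t₀) = Uv A := by
    rw [hUg]
    unfold Uv
    refine Finset.sum_congr rfl fun i _ => Finset.sum_congr rfl fun j _ => ?_
    have : ∀ k l : Fin n, (GIf x₀ L u i k (0, t₀) * GIf x₀ L u j l (0, t₀) * zfn k l (0, t₀)) •
        Af x₀ L u i j (0, t₀)
        = if i = k then (if j = l then zz A k l • A i j else 0) else 0 := by
      intro k l
      rw [(hG i k).2.1, (hG j l).2.1, hz0, (hAf i j).2.1]
      split_ifs <;> simp
    simp only [this, Finset.sum_ite_eq, Finset.mem_univ, if_true, Finset.sum_ite_irrel,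
      Finset.sum_const_zero]
  refine ⟨hUs, hUv, fun m => ?_⟩
  have hne : (∞ : WithTop ℕ∞) ≠ 0 := by simp
  have z0 : ((0 : EE n), t₀) + (0 : ℝ) • ((ee m, 0) : EE n × ℝ) = (0, t₀) := by simp
  have dS := line_UJ (Uf x₀ L u) (0, t₀) m (hUs.differentiableAt hne)
  have dH := line_UJ (Hf x₀ L u) (0, t₀) m (hHs.differentiableAt hne)
  have dA : ∀ i j, HasDerivAt (fun s : ℝ => Af x₀ L u i j ((0, t₀) + s • ((ee m, 0) : EE n × ℝ)))
      (T i j m - ∑ a, (inner ℝ (A i j) (A a m) : ℝ) • L (ee a)) 0 := fun i j => by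
    have h := line_UJ _ (0, t₀) m ((hAf i j).1.differentiableAt hne)
    rw [(hAf i j).2.2.1 m, hT3.1 m i j, hT3.2 i m j] at h
    exact h
  have dG : ∀ i j, HasDerivAt (fun s : ℝ => GIf x₀ L u i j ((0, t₀) + s • ((ee m, 0) : EE n × ℝ)))
      0 0 := fun i j => by
    have := line_UJ (GIf x₀ L u i j) (0, t₀) m ((hG i j).1.differentiableAt hne)
    rwa [(hG i j).2.2.1 m] at this
  have dz : ∀ i j, HasDerivAt (fun s : ℝ => zfn i j ((0, t₀) + s • ((ee m, 0) : EE n × ℝ)))
      (gz A T i j m) 0 := by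
    intro i j
    have h1 := (dA i j).inner ℝ dH
    refine h1.congr_deriv ?_
    rw [z0, hHv, (hAf i j).2.1, hHg m]
    have e3 : (inner ℝ (A i j) (∑ a, (inner ℝ (Hv A) (A a m) : ℝ) • L (ee a)) : ℝ) = 0 := by
      rw [inner_sum]
      refine Finset.sum_eq_zero fun a _ => ?_
      rw [inner_smul_right, hAL, mul_zero]
    have e4 : (inner ℝ (∑ a, (inner ℝ (A i j) (A a m) : ℝ) • L (ee a)) (Hv A) : ℝ) = 0 := by
      rw [sum_inner]
      refine Finset.sum_eq_zero fun a _ => ?_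
      rw [real_inner_smul_left, hHL', mul_zero]
    simp only [inner_sub_left, inner_sub_right, e3, e4, sub_zero]
    unfold gz
    ring
  have dt : ∀ i j k l, HasDerivAt (fun s : ℝ =>
      (GIf x₀ L u i k ((0, t₀) + s • ((ee m, 0) : EE n × ℝ))
        * GIf x₀ L u j l ((0, t₀) + s • ((ee m, 0) : EE n × ℝ))
        * zfn k l ((0, t₀) + s • ((ee m, 0) : EE n × ℝ)))
        • Af x₀ L u i j ((0, t₀) + s • ((ee m, 0) : EE n × ℝ)))
      (if i = k then (if j = l then gz A T k l m • A i j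
        + zz A k l • (T i j m - ∑ a, (inner ℝ (A i j) (A a m) : ℝ) • L (ee a)) else 0)
        else 0) 0 := by
    intro i j k l
    have h1 := (((dG i k).mul (dG j l)).mul (dz k l)).smul (dA i j)
    refine h1.congr_deriv ?_
    simp only [z0, (hG i k).2.1, (hG j l).2.1, hz0, (hAf i j).2.1, Pi.mul_apply, zero_mul,
      mul_zero, add_zero, zero_add]
    split_ifs <;> simp [add_comm]
  have dsum : HasDerivAt (fun s : ℝ => Uf x₀ L u ((0, t₀) + s • ((ee m, 0) : EE n × ℝ)))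
      (∑ i, ∑ j, ∑ k, ∑ l, (if i = k then (if j = l then gz A T k l m • A i j
        + zz A k l • (T i j m - ∑ a, (inner ℝ (A i j) (A a m) : ℝ) • L (ee a)) else 0)
        else 0)) 0 := by
    simp only [hUg]
    exact HasDerivAt.fun_sum fun i _ => HasDerivAt.fun_sum fun j _ =>
      HasDerivAt.fun_sum fun k _ => HasDerivAt.fun_sum fun l _ => dt i j k l
  rw [dS.unique dsum]
  simp only [Finset.sum_ite_eq, Finset.mem_univ, if_true, Finset.sum_ite_irrel,
    Finset.sum_const_zero]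
  have e7 : ∑ a, (inner ℝ (Uv A) (A a m) : ℝ) • L (ee a)
      = ∑ i, ∑ j, zz A i j • ∑ a, (inner ℝ (A i j) (A a m) : ℝ) • L (ee a) := by
    simp only [Finset.smul_sum, smul_smul]
    rw [Finset.sum_congr rfl fun i _ => Finset.sum_comm, Finset.sum_comm]
    refine Finset.sum_congr rfl fun a _ => ?_
    simp only [← Finset.sum_smul]
    unfold Uv
    simp only [sum_inner, real_inner_smul_left]
  unfold dU
  rw [e7, ← Finset.sum_sub_distrib]
  refine Finset.sum_congr rfl fun i _ => ?_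
  rw [← Finset.sum_sub_distrib]
  refine Finset.sum_congr rfl fun j _ => ?_
  rw [smul_sub]
  abel

end Pool.Agent.Helper2.CL
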